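import Pool.Agent.PQP.StmtsX

/-!
# Squad PQP, row TYT: Taylor bounds of order three on the sphere
-/

set_option autoImplicit false

open scoped InnerProductSpace Topology ContDiff Manifold
open MeasureTheory Filter Set

noncomputable section

namespace Pool.Agent.PQP.H24

open Pool.Agent.Helper42_Paneitz Pool.Agent.Helper82_Vir Pool.Agent.FLX

/-- the annulus `1/2 ≤ |y| ≤ 1` -/
def ann : Set E5 := Metric.closedBall 0 1 \ Metric.ball 0 (1 / 2)

theorem mem_ann {y : E5} (h1 : 1 / 2 ≤ ‖y‖) (h2 : ‖y‖ ≤ 1) : y ∈ ann := by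
  refine ⟨mem_closedBall_zero_iff.2 h2, fun h => ?_⟩
  have := mem_ball_zero_iff.1 h
  linarith

theorem ann_ne {y : E5} (h : y ∈ ann) : y ≠ 0 := by
  rintro rfl
  exact h.2 (Metric.mem_ball_self (by norm_num))

theorem isCompact_ann : IsCompact ann :=
  (isCompact_closedBall (0 : E5) 1).diff Metric.isOpen_ball

theorem seg_ann {x y : E5} (hx : ‖x‖ = 1) (hy : ‖y‖ = 1) (hxy : ‖y - x‖ ≤ 1) {t : ℝ}
    (h0 : 0 ≤ t) (h1 : t ≤ 1) : x + t • (y - x) ∈ ann := by
  have e1 : ‖t • (y - x)‖ ≤ t := by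
    rw [norm_smul, Real.norm_of_nonneg h0]
    exact mul_le_of_le_one_right h0 hxy
  have e2 : ‖(1 - t) • (y - x)‖ ≤ 1 - t := by
    rw [norm_smul, Real.norm_of_nonneg (by linarith)]
    exact mul_le_of_le_one_right (by linarith) hxy
  apply mem_ann
  · rcases le_total t (1 / 2) with h | h
    · have h3 : ‖x‖ ≤ ‖x + t • (y - x)‖ + ‖t • (y - x)‖ := by
        have := norm_sub_le (x + t • (y - x)) (t • (y - x))
        rwa [add_sub_cancel_right] at this
      linarith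
    · have e3 : y = x + t • (y - x) + (1 - t) • (y - x) := by
        rw [sub_smul, one_smul]
        abel
      have h3 : ‖y‖ ≤ ‖x + t • (y - x)‖ + ‖(1 - t) • (y - x)‖ := by
        conv_lhs => rw [e3]
        exact norm_add_le _ _
      linarith
  · have e3 : x + t • (y - x) = (1 - t) • x + t • y := by
      rw [smul_sub, sub_smul, one_smul]
      abel
    rw [e3]
    refine (norm_add_le _ _).trans ?_
    rw [norm_smul, norm_smul, hx, hy, Real.norm_of_nonneg h0, Real.norm_of_nonneg (by linarith)]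
    linarith

theorem hline {x w : E5} (t : ℝ) : HasDerivAt (fun t : ℝ => x + t • w) w t := by
  have := ((hasDerivAt_id t).smul_const w).const_add x
  simpa using this

/-- a smooth function off the origin with values in a normed space is Lipschitz on the annulus -/
theorem smooth_ann {W : Type} [NormedAddCommGroup W] [NormedSpace ℝ W] (f : E5 → W)
    (hf : ContDiffOn ℝ ∞ f {y : E5 | y ≠ 0}) :
    ContDiffOn ℝ ∞ (fderiv ℝ f) {y : E5 | y ≠ 0} ∧
    (∀ z ∈ ann, HasFDerivAt f (fderiv ℝ f z) z) ∧ ∃ M : ℝ, 0 ≤ M ∧ (∀ z ∈ ann, ‖f z‖ ≤ M) ∧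
      ∀ x w : E5, (∀ t ∈ Icc (0 : ℝ) 1, x + t • w ∈ ann) → ∀ t ∈ Icc (0 : ℝ) 1,
        ‖f (x + t • w) - f x‖ ≤ M * ‖w‖ := by
  have hU : IsOpen {y : E5 | y ≠ 0} := isOpen_ne
  have c1 : ContDiffOn ℝ ∞ (fderiv ℝ f) {y : E5 | y ≠ 0} := hf.fderiv_of_isOpen hU (by simp)
  have hann : ann ⊆ {y : E5 | y ≠ 0} := fun y hy => ann_ne hy
  have hd : ∀ z ∈ ann, HasFDerivAt f (fderiv ℝ f z) z := by
    intro z hz
    have h5 : ContDiffAt ℝ ∞ f z := (hf z (ann_ne hz)).contDiffAt (hU.mem_nhds (ann_ne hz))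
    exact (h5.differentiableAt (by simp)).hasFDerivAt
  obtain ⟨M0, hM0⟩ := isCompact_ann.exists_bound_of_continuousOn (hf.continuousOn.mono hann)
  obtain ⟨M1, hM1⟩ := isCompact_ann.exists_bound_of_continuousOn (c1.continuousOn.mono hann)
  refine ⟨c1, hd, max 0 (max M0 M1), le_max_left _ _,
    fun z hz => (hM0 z hz).trans ((le_max_left _ _).trans (le_max_right _ _)), ?_⟩
  intro x w hseg t ht
  have hd' : ∀ s ∈ Icc (0 : ℝ) 1, HasDerivWithinAt (fun s : ℝ => f (x + s • w))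
      (fderiv ℝ f (x + s • w) w) (Icc 0 1) s := fun s hs =>
    ((hd _ (hseg s hs)).comp_hasDerivAt s (hline s)).hasDerivWithinAt
  have hb : ∀ s ∈ Ico (0 : ℝ) 1, ‖fderiv ℝ f (x + s • w) w‖ ≤ max 0 (max M0 M1) * ‖w‖ :=
    fun s hs => (ContinuousLinearMap.le_opNorm _ _).trans
      (mul_le_mul_of_nonneg_right ((hM1 _ (hseg s ⟨hs.1, hs.2.le⟩)).trans
        ((le_max_right _ _).trans (le_max_right _ _))) (norm_nonneg _))
  have := norm_image_sub_le_of_norm_deriv_le_segment' hd' hb t ht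
  rw [zero_smul, add_zero, sub_zero] at this
  exact this.trans (mul_le_of_le_one_right (by positivity) ht.2)

/-- the abstract Taylor estimate along a segment -/
theorem taylor3 {F : E5 → ℝ} {x w : E5} {M : ℝ} (hM : 0 ≤ M)
    (h1 : ∀ t ∈ Icc (0 : ℝ) 1, HasFDerivAt F (fderiv ℝ F (x + t • w)) (x + t • w))
    (h2 : ∀ t ∈ Icc (0 : ℝ) 1, HasFDerivAt (fderiv ℝ F) (fderiv ℝ (fderiv ℝ F) (x + t • w))
      (x + t • w))
    (k3 : ∀ t ∈ Icc (0 : ℝ) 1,
      ‖fderiv ℝ (fderiv ℝ F) (x + t • w) - fderiv ℝ (fderiv ℝ F) x‖ ≤ M * ‖w‖) :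
    |F (x + w) - F x - fderiv ℝ F x w - fderiv ℝ (fderiv ℝ F) x w w / 2| ≤ M * ‖w‖ ^ 3 := by
  -- the first derivative
  have k2 : ∀ t ∈ Icc (0 : ℝ) 1,
      ‖(fderiv ℝ F (x + t • w) w - t * fderiv ℝ (fderiv ℝ F) x w w) - fderiv ℝ F x w‖ ≤
        M * ‖w‖ ^ 3 := by
    intro t ht
    have hd : ∀ s ∈ Icc (0 : ℝ) 1,
        HasDerivWithinAt (fun s : ℝ => fderiv ℝ F (x + s • w) w -
          s * fderiv ℝ (fderiv ℝ F) x w w)
          (fderiv ℝ (fderiv ℝ F) (x + s • w) w w - fderiv ℝ (fderiv ℝ F) x w w)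
          (Icc 0 1) s := by
      intro s hs
      have a1 : HasDerivAt (fun s : ℝ => fderiv ℝ F (x + s • w) w)
          (fderiv ℝ (fderiv ℝ F) (x + s • w) w w) s := by
        have b1 := (h2 s hs).comp_hasDerivAt s (hline s)
        exact b1.clm_apply (hasDerivAt_const s w) |>.congr_deriv (by simp)
      have a2 : HasDerivAt (fun s : ℝ => s * fderiv ℝ (fderiv ℝ F) x w w)
          (fderiv ℝ (fderiv ℝ F) x w w) s := by
        simpa using (hasDerivAt_id s).mul_const (fderiv ℝ (fderiv ℝ F) x w w)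
      exact (a1.sub a2).hasDerivWithinAt
    have hb : ∀ s ∈ Ico (0 : ℝ) 1,
        ‖fderiv ℝ (fderiv ℝ F) (x + s • w) w w - fderiv ℝ (fderiv ℝ F) x w w‖ ≤
          M * ‖w‖ ^ 3 := by
      intro s hs
      have e : fderiv ℝ (fderiv ℝ F) (x + s • w) w w - fderiv ℝ (fderiv ℝ F) x w w =
          (fderiv ℝ (fderiv ℝ F) (x + s • w) - fderiv ℝ (fderiv ℝ F) x) w w := rfl
      rw [e]
      calc ‖(fderiv ℝ (fderiv ℝ F) (x + s • w) - fderiv ℝ (fderiv ℝ F) x) w w‖
          ≤ ‖(fderiv ℝ (fderiv ℝ F) (x + s • w) - fderiv ℝ (fderiv ℝ F) x) w‖ * ‖w‖ :=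
            ContinuousLinearMap.le_opNorm _ _
        _ ≤ (‖fderiv ℝ (fderiv ℝ F) (x + s • w) - fderiv ℝ (fderiv ℝ F) x‖ * ‖w‖) * ‖w‖ :=
            mul_le_mul_of_nonneg_right (ContinuousLinearMap.le_opNorm _ _) (norm_nonneg _)
        _ ≤ ((M * ‖w‖) * ‖w‖) * ‖w‖ := by
            have := k3 s ⟨hs.1, hs.2.le⟩
            gcongr
        _ = M * ‖w‖ ^ 3 := by ring
    have := norm_image_sub_le_of_norm_deriv_le_segment' hd hb t ht
    rw [zero_smul, add_zero, zero_mul, sub_zero, sub_zero] at this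
    exact this.trans (mul_le_of_le_one_right (by positivity) ht.2)
  -- the function
  have hd : ∀ s ∈ Icc (0 : ℝ) 1,
      HasDerivWithinAt (fun s : ℝ => F (x + s • w) - s * fderiv ℝ F x w -
        s ^ 2 / 2 * fderiv ℝ (fderiv ℝ F) x w w)
        ((fderiv ℝ F (x + s • w) w - s * fderiv ℝ (fderiv ℝ F) x w w) - fderiv ℝ F x w)
        (Icc 0 1) s := by
    intro s hs
    have a1 : HasDerivAt (fun s : ℝ => F (x + s • w)) (fderiv ℝ F (x + s • w) w) s :=
      (h1 s hs).comp_hasDerivAt s (hline s)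
    have a2 : HasDerivAt (fun s : ℝ => s * fderiv ℝ F x w) (fderiv ℝ F x w) s := by
      simpa using (hasDerivAt_id s).mul_const (fderiv ℝ F x w)
    have a3 : HasDerivAt (fun s : ℝ => s ^ 2 / 2 * fderiv ℝ (fderiv ℝ F) x w w)
        (s * fderiv ℝ (fderiv ℝ F) x w w) s := by
      have b := ((hasDerivAt_pow 2 s).div_const 2).mul_const (fderiv ℝ (fderiv ℝ F) x w w)
      refine b.congr_deriv ?_
      norm_num
    refine (((a1.sub a2).sub a3).congr_deriv ?_).hasDerivWithinAt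
    ring
  have hfin := norm_image_sub_le_of_norm_deriv_le_segment_01' hd
    fun s hs => k2 s ⟨hs.1, hs.2.le⟩
  rw [Real.norm_eq_abs] at hfin
  refine le_trans (le_of_eq ?_) hfin
  congr 1
  rw [one_smul, zero_smul, add_zero]
  ring

/-- TYT. -/
theorem tyt : TytStmt := by
  intro g hg
  obtain ⟨F, hF⟩ : ∃ F, F = radialExt g := ⟨_, rfl⟩
  have c0 : ContDiffOn ℝ ∞ F {y : E5 | y ≠ 0} := by
    intro y hy
    rw [hF]
    exact (hg y hy).contDiffWithinAt
  obtain ⟨c1, d0, M0, p0, hM0, -⟩ := smooth_ann F c0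
  obtain ⟨c2, d1, M1, p1, hM1, -⟩ := smooth_ann (fderiv ℝ F) c1
  obtain ⟨-, -, M2, p2, hM2, hL⟩ := smooth_ann (fderiv ℝ (fderiv ℝ F)) c2
  have hS : ∀ x : S4, (x : E5) ∈ ann := fun x => by
    have : ‖(x : E5)‖ = 1 := mem_sphere_zero_iff_norm.1 x.2
    exact mem_ann (by linarith) this.le
  refine ⟨2 * M0 + 2 * M1 + 2 * M2, by positivity, ?_, ?_, ?_⟩
  · intro x y
    have hx : ‖(x : E5)‖ = 1 := mem_sphere_zero_iff_norm.1 x.2
    have hy : ‖(y : E5)‖ = 1 := mem_sphere_zero_iff_norm.1 y.2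
    have ex : g x = F x := by rw [hF, radialExt_coe]
    have ey : g y = F y := by rw [hF, radialExt_coe]
    have e1 : dd g x ((y : E5) - (x : E5)) = fderiv ℝ F (x : E5) ((y : E5) - (x : E5)) := by
      rw [hF]; rfl
    have e2 : hess g x ((y : E5) - (x : E5)) ((y : E5) - (x : E5)) =
        fderiv ℝ (fderiv ℝ F) (x : E5) ((y : E5) - (x : E5)) ((y : E5) - (x : E5)) := by
      rw [hF]; rfl
    rw [ex, ey, e1, e2]
    rcases le_total ‖(y : E5) - (x : E5)‖ 1 with h | h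
    · have hseg : ∀ t ∈ Icc (0 : ℝ) 1, (x : E5) + t • ((y : E5) - (x : E5)) ∈ ann :=
        fun t ht => seg_ann hx hy h ht.1 ht.2
      have key := taylor3 (F := F) (x := (x : E5)) (w := (y : E5) - (x : E5)) p2
        (fun t ht => d0 _ (hseg t ht)) (fun t ht => d1 _ (hseg t ht)) (hL _ _ hseg)
      rw [add_sub_cancel] at key
      refine key.trans (mul_le_mul_of_nonneg_right ?_ (by positivity))
      linarith
    · have hw : ‖(y : E5) - (x : E5)‖ ≤ 2 := by
        refine (norm_sub_le _ _).trans ?_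
        rw [hx, hy]
        norm_num
      obtain ⟨w, hwd⟩ : ∃ w, w = (y : E5) - (x : E5) := ⟨_, rfl⟩
      rw [← hwd] at h hw ⊢
      have b0 : |F y| ≤ M0 := hM0 _ (hS y)
      have b0' : |F x| ≤ M0 := hM0 _ (hS x)
      have b1 : |fderiv ℝ F (x : E5) w| ≤ M1 * 2 :=
        (ContinuousLinearMap.le_opNorm _ _).trans
          (mul_le_mul (hM1 _ (hS x)) hw (norm_nonneg _) p1)
      have b2 : |fderiv ℝ (fderiv ℝ F) (x : E5) w w| ≤ M2 * 2 * 2 :=
        (ContinuousLinearMap.le_opNorm _ _).trans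
          (mul_le_mul ((ContinuousLinearMap.le_opNorm _ _).trans
            (mul_le_mul (hM2 _ (hS x)) hw (norm_nonneg _) p2)) hw (norm_nonneg _) (by positivity))
      have hpow : 1 ≤ ‖w‖ ^ 3 := one_le_pow₀ h
      have hlhs : |F y - F x - fderiv ℝ F (x : E5) w - fderiv ℝ (fderiv ℝ F) (x : E5) w w / 2| ≤
          2 * M0 + 2 * M1 + 2 * M2 := by
        rw [abs_le] at b0 b0' b1 b2 ⊢
        constructor <;> linarith [b0.1, b0.2, b0'.1, b0'.2, b1.1, b1.2, b2.1, b2.2]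
      refine hlhs.trans (le_mul_of_one_le_right (by positivity) hpow)
  · intro x v
    have e1 : dd g x v = fderiv ℝ F (x : E5) v := by rw [hF]; rfl
    rw [e1]
    refine (ContinuousLinearMap.le_opNorm _ _).trans
      (mul_le_mul_of_nonneg_right ((hM1 _ (hS x)).trans ?_) (norm_nonneg _))
    linarith
  · intro x v v'
    have e1 : hess g x v v' = fderiv ℝ (fderiv ℝ F) (x : E5) v v' := by rw [hF]; rfl
    rw [e1]
    refine (ContinuousLinearMap.le_opNorm _ _).trans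
      (mul_le_mul_of_nonneg_right ((ContinuousLinearMap.le_opNorm _ _).trans
        (mul_le_mul_of_nonneg_right ((hM2 _ (hS x)).trans ?_) (norm_nonneg _))) (norm_nonneg _))
    linarith

end Pool.Agent.PQP.H24
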